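import Pool.Agent.T63.CL.Base
import Pool.Agent.N375.AV.D

/-!
# The `3x+d` maps: the orbits of all integers near values of additive functions, for all `d` at once

Let `F = f_1 ∘ ⋯ ∘ f_k` be a composition of functions dominated by the largest prime factor (`PD`), for
example additive functions `f` with `f (q^j) ≤ C q^j` at the prime powers, with different values at
different large primes (the sum of the prime factors), the largest prime factor itself, and Kempner's
function. There is `γ > 1 - H`, `H = 0.94995...`, such that the following holds if `0 < η ≤ 1`,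
`0 ≤ θ, κ`, the function `G` has steps bounded below by a positive constant and growth at most `v ^ e`,
for example `G v = v`, and `e (1 + (1 + γ) θ - γ η) + κ < 1`. For all `m ≤ N` but
`K N exp (- c (log N)^(1 / (k + 1)))`, for EVERY integer `x` with `||x| - G (F m)| ≤ F(m) ^ κ` and ALL odd
`d` prime to `3` with `|d| ≤ |x| ^ θ`, the `3x+d` orbit of `x` comes down to a value `≤ |x| ^ η`. The
values of `F` are taken with very large multiplicities and `F(m)` is in general much smaller than `m`; and
so this does not follow from the number of the exceptional pairs `(d, x)`.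

Proof. The preimage of a set with at most `K X exp (- c (log X)^β)` elements up to `X` under a function
dominated by the largest prime factor has at most `K' X exp (- c' (log X)^(β / (1 + β)))` elements
(starting library `N375/AV`). The number of the exceptional pairs `(d, x)` with `|x| ≤ X` is
`O(X ^ (1 + (1 + γ) θ - γ η))`, by the starting library `TH235/UB` (the bound for one `d`, which is uniform
in `d` at the scale `|d|`), summation over `d` and dyadic summation over `x`.
-/

set_option autoImplicit false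

namespace Pool.Agent.Results.MP_d0d59f_nt.AdditiveValues

open Pool.Agent.T63.CL
open Pool.Agent.N733.TG (Expanding expanding_pow)
open Pool.Agent.N375.AV (PD comp good pd_additive pd_largest pd_kempner)

/-- **The `3x+d` maps near the values of compositions of additive functions, uniformly in `d`.** There is
`γ`, `1 - H < γ < 1`, `H = 0.94995...`, such that for all compositions `F = comp fs` of functions dominated
by the largest prime factor, `G` with steps `≥ a > 0` and growth at most `v ^ e`, `0 < η ≤ 1`, `θ, κ ≥ 0`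
with `e (1 + (1 + γ) θ - γ η) + κ < 1`: for all `m ≤ N` but `K N exp (- c (log N)^(1 / (k + 1)))`, for EVERY
integer `x` with `||x| - G (F m)| ≤ F(m) ^ κ` and ALL odd `d` prime to `3` with `|d| ≤ |x| ^ θ` the `3x+d`
orbit of `x` contains a term of absolute value `≤ |x| ^ η` (`AllDown`). The additive functions with
`f (q^j) ≤ C q^j` which are injective at the large primes, the largest prime factor and Kempner's function
are examples of such functions, and `α v ^ e` with `α > 0`, `e ≥ 1` is an example of `G`. -/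
theorem result :
    ∃ γ : ℝ, 1 - H < γ ∧ γ < 1 ∧ ∀ fs : List (ℕ → ℕ), (∀ f ∈ fs, PD f) →
      ∀ (G : ℕ → ℝ) (e : ℝ), Expanding G e → ∀ η θ κ : ℝ, 0 < η → η ≤ 1 → 0 ≤ θ → 0 ≤ κ →
      e * (1 + (1 + γ) * θ - γ * η) + κ < 1 →
      ∃ c K : ℝ, 0 < c ∧ ∀ N : ℕ, 1 ≤ N →
      ({m : ℕ | 1 ≤ m ∧ m ≤ N ∧ ¬ AllDown θ η (G (comp fs m)) ((comp fs m : ℝ) ^ κ)}.ncard : ℝ) ≤
        K * N * Real.exp (-(c * Real.log N ^ ((1 : ℝ) / (fs.length + 1)))) := by
  obtain ⟨γ, hγ, hγ1, hp⟩ := pairs
  have hH := H_lt
  refine ⟨γ, hγ, hγ1, fun fs hfs G e hG η θ κ hη hη1 hθ hκ h1 => ?_⟩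
  have hs : 0 ≤ 1 + (1 + γ) * θ - γ * η := by
    have h2 : γ * η ≤ 1 := by nlinarith
    have h3 : 0 ≤ (1 + γ) * θ := mul_nonneg (by linarith) hθ
    linarith
  obtain ⟨c, K, hc, hcK⟩ := good (Adm θ) (Good η) (fun p : ℤ × ℤ => |(p.2 : ℝ)|) fs hfs hG
    (s := 1 + (1 + γ) * θ - γ * η) (κ := κ) hs hκ h1 (pairsε (hp η θ hη hη1 hθ))
  refine ⟨c, K, hc, fun N hN => le_trans ?_ (hcK N hN)⟩
  have hfin : ∀ P : ℕ → Prop, {m : ℕ | 1 ≤ m ∧ m ≤ N ∧ P m}.Finite := fun P =>
    (Set.finite_Icc 1 N).subset fun m hm => ⟨hm.1, hm.2.1⟩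
  have hsub : {m : ℕ | 1 ≤ m ∧ m ≤ N ∧ ¬ AllDown θ η (G (comp fs m)) ((comp fs m : ℝ) ^ κ)} ⊆
      {m : ℕ | 1 ≤ m ∧ m ≤ N ∧ ¬ ∀ t : ℤ × ℤ, Adm θ t →
        |(|(t.2 : ℝ)|) - G (comp fs m)| ≤ (comp fs m : ℝ) ^ κ → Good η t} := by
    rintro m ⟨h2, h3, h4⟩
    exact ⟨h2, h3, fun h5 => h4 (allDown_of h5)⟩
  exact_mod_cast Set.ncard_le_ncard hsub (hfin _)

end Pool.Agent.Results.MP_d0d59f_nt.AdditiveValues
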