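import Pool.Agent.T63.CL.Base
import Pool.Agent.N790.CM.C

/-!
# The `3x+d` maps: all integers near all multiples of Carmichael's function of almost all integers, for all `d` at once

There is `γ > 1 - H`, `H = 0.94995...`, with the following property. Let `G` have steps bounded below by a
positive constant and growth at most `v ^ e`, for example `G v = v`, `0 < η ≤ 1`, `θ, κ ≥ 0`, `B ≥ 1` and
`B (e (1 + (1 + γ) θ - γ η) + κ) < 1`. For all `u ≤ N` but `N / (log N) ^ A` and ALL multiples `w ≤ N ^ B` of
Carmichael's function `λ(u)` (for example Euler's function `φ(u)`), for EVERY integer `x` with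
`||x| - G(w)| ≤ w ^ κ` and ALL odd `d` prime to `3` with `|d| ≤ |x| ^ θ`, the `3x+d` orbit of `x` comes down to
a value `≤ |x| ^ η`. The same is true for the common multiples `w` of the numbers `F p`, `p` the large primes
which divide `u` exactly once, if `F` takes each positive value at boundedly many primes, for example
`F p = |P(p)|` for a nonconstant polynomial `P`.

Some `w` are multiples of `λ(u)` for more than `N ^ (1 - δ)` of the `u ≤ N`, so that this does not follow from
the number of the exceptional pairs `(d, x)`. It combines the starting library `N790/CM` with the number of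
these pairs: the starting library `TH235/UB` bounds the number of the exceptional `x` for one `d`, uniformly
in `d` at the scale `|d|`, and this is summed over `d`.
-/

set_option autoImplicit false

namespace Pool.Agent.Results.MP_d0d59f_nt.CarmichaelMultiples

open Pool.Agent.T63.CL
open Pool.Agent.N733.TG (Expanding expanding_pow)
open Pool.Agent.N790.CM (FewTimes Carries OnMultiples OnCarmichael fewTimes_pred fewTimes_poly
  pred_dvd_carmichael keep_good)

/-- **The `3x+d` maps near all multiples of Carmichael's function of almost all integers, uniformly in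
`d`.** There is `γ`, `1 - H < γ < 1`, `H = 0.94995...`, such that for `G` with steps `≥ a > 0` and growth at most
`v ^ e`, `0 < η ≤ 1`, `θ, κ ≥ 0`, `B ≥ 1` with `B (e (1 + (1 + γ) θ - γ η) + κ) < 1`: for all `u ≤ N` but
`N / (log N) ^ A` and ALL multiples `w ≤ N ^ B` of `λ(u)`, and also for all common multiples `w ≤ N ^ B` of the
numbers `F p`, `p > exp (√(log N))` a prime which divides `u` exactly once, `F` any function which takes each
positive value at boundedly many primes, for EVERY integer `x` with `||x| - G w| ≤ w ^ κ` and ALL odd `d`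
prime to `3` with `|d| ≤ |x| ^ θ`, the `3x+d` orbit of `x` contains a term of absolute value `≤ |x| ^ η`
(`AllDown`). Examples of `F` are `p - 1` and `|P(p)|`, `P` a nonconstant polynomial, and `α v ^ e` with
`α > 0`, `e ≥ 1` is an example of `G`. -/
theorem result :
    ∃ γ : ℝ, 1 - H < γ ∧ γ < 1 ∧
      ∀ (G : ℕ → ℝ) (e : ℝ), Expanding G e → ∀ η θ κ B : ℝ, 0 < η → η ≤ 1 → 0 ≤ θ → 0 ≤ κ → 1 ≤ B →
      B * (e * (1 + (1 + γ) * θ - γ * η) + κ) < 1 →
      OnMultiples B (fun w => AllDown θ η (G w) ((w : ℝ) ^ κ)) := by
  obtain ⟨γ, hγ, hγ1, hp⟩ := pairs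
  have hH := H_lt
  refine ⟨γ, hγ, hγ1, fun G e hG η θ κ B hη hη1 hθ hκ hB h1 => ?_⟩
  have hs : 0 ≤ 1 + (1 + γ) * θ - γ * η := by
    have h2 : γ * η ≤ 1 := by nlinarith
    have h3 : 0 ≤ (1 + γ) * θ := mul_nonneg (by linarith) hθ
    linarith
  have key : OnMultiples B (fun w => AllDown θ η (G w) ((w : ℝ) ^ κ)) :=
    (keep_good (Adm θ) (Good η) (fun p : ℤ × ℤ => |(p.2 : ℝ)|) hG
      (s := 1 + (1 + γ) * θ - γ * η) (κ := κ) (B := B) hs hκ hB h1
      (pairsε (hp η θ hη hη1 hθ))).mono fun w _ hw => allDown_of hw
  exact key

end Pool.Agent.Results.MP_d0d59f_nt.CarmichaelMultiples
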