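import Pool.Agent.T63.CL.Base
import Pool.Agent.N671.DA.Win

/-!
# The `3x+d` maps: the orbits of all integers near functions of the denominators of good approximations, for all `d` at once

Let `α_1, …, α_m` be real numbers. We consider the natural numbers `q` with `‖q α_j - β_j‖ ≤ c q^(-τ)` for
all `j`, `‖x‖` the distance to the nearest integer; for `β = 0`, `c = 1`, `τ = 1 / m` these include the
denominators of all best simultaneous approximations (the denominators of the convergents for `m = 1`).
They form a very sparse sequence, with gaps growing exponentially for almost all `α` if `τ = 1 / m`. There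
is `γ > 1 - H`, `H = 0.94995...`, such that for all `α` in `ℝ^m` outside a set of Hausdorff dimension at most
`(m + e (1 + (1 + γ) θ - γ η) + κ) / (1 + τ)`, and all `c`, for all but finitely many such `q`, EVERY integer
`x` with `||x| - G q| ≤ q ^ κ` and ALL odd `d` prime to `3` with `|d| ≤ |x| ^ θ`, the `3x+d` orbit of `x` comes
down to a value `≤ |x| ^ η`; `G` has steps bounded below by a positive constant and growth at most `v ^ e`,
for example `a v^e`. For `τ = 1 / m` the bound is less than `m` if `e (1 + (1 + γ) θ - γ η) + κ < 1`; and so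
the statement holds for almost all `α`.

Proof. The `q` such that there is an exceptional pair `(d, x)` with `|x|` near `G q` form a set with
`O(X^(e (1 + (1 + γ) θ - γ η) + κ + ε))` elements up to `X`: the starting library `TH235/UB` bounds the number
of the exceptional `x` for one `d`, uniformly in `d` at the scale `|d|`; this is summed over `d`. The `α`
with `‖q α_j - β_j‖ ≤ c q^(-τ)` for all `j` and infinitely many `q` of such a set are covered by few small
cubes (starting library `N671/DA`).
-/

set_option autoImplicit false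

namespace Pool.Agent.Results.MP_d0d59f_nt.SimultaneousApproximations

open Pool.Agent.T63.CL
open Pool.Agent.N671.DA (Solves Expanding expanding_pow approx_good)

/-- **The `3x+d` maps near the denominators of good approximations, uniformly in `d`.** There is `γ`,
`1 - H < γ < 1`, `H = 0.94995...`, such that for all `0 < η ≤ 1`, `θ ≥ 0`, `G` with steps `≥ a > 0` and growth
at most `v ^ e`, `0 ≤ κ ≤ 1`, `β` in `ℝ^m` and `τ > 0`: for all `α` in `ℝ^m` outside a set of Hausdorff
dimension at most `(m + e (1 + (1 + γ) θ - γ η) + κ) / (1 + τ)` and all `c`, for all large `q` with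
`‖q α_j - β_j‖ ≤ c q^(-τ)` for all `j`, for EVERY integer `x` with `||x| - G q| ≤ q ^ κ` and ALL odd `d` prime
to `3` with `|d| ≤ |x| ^ θ`, the `3x+d` orbit of `x` contains a term of absolute value `≤ |x| ^ η`
(`AllDown`). The functions `a v^e` with `a > 0`, `e ≥ 1` are examples of `G`. -/
theorem result :
    ∃ γ : ℝ, 1 - H < γ ∧ γ < 1 ∧
      ∀ (G : ℕ → ℝ) (e : ℝ), Expanding G e → ∀ η θ κ : ℝ, 0 < η → η ≤ 1 → 0 ≤ θ → 0 ≤ κ → κ ≤ 1 →
      ∀ (m : ℕ) (β : Fin m → ℝ) (τ : ℝ), 0 < τ →
      ∃ E : Set (Fin m → ℝ),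
        dimH E ≤ ENNReal.ofReal ((m + (e * (1 + (1 + γ) * θ - γ * η) + κ)) / (1 + τ)) ∧
        ∀ α, α ∉ E → ∀ c : ℝ, ∃ Q : ℕ, ∀ q : ℕ, Q ≤ q → Solves α β q (c * (q : ℝ) ^ (-τ)) →
          AllDown θ η (G q) ((q : ℝ) ^ κ) := by
  obtain ⟨γ, hγ, hγ1, hp⟩ := pairs
  have hH := H_lt
  refine ⟨γ, hγ, hγ1, fun G e hG η θ κ hη hη1 hθ hκ hκ1 m β τ hτ => ?_⟩
  have hs : 0 ≤ 1 + (1 + γ) * θ - γ * η := by
    have h2 : γ * η ≤ 1 := by nlinarith
    have h3 : 0 ≤ (1 + γ) * θ := mul_nonneg (by linarith) hθ
    linarith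
  obtain ⟨E, hE, hE2⟩ := approx_good (Adm θ) (Good η) (fun p : ℤ × ℤ => |(p.2 : ℝ)|) hG
    (s := 1 + (1 + γ) * θ - γ * η) (κ := κ) hs hκ hκ1 (pairsε (hp η θ hη hη1 hθ)) β hτ
  refine ⟨E, hE, fun α hα c => ?_⟩
  obtain ⟨Q, hQ⟩ := hE2 α hα c
  exact ⟨Q, fun q hq h1 => allDown_of (hQ q hq h1)⟩

end Pool.Agent.Results.MP_d0d59f_nt.SimultaneousApproximations
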