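import Pool.Agent.T63.CL.Base
import Pool.Agent.N760.IT.D

/-!
# The `3x+d` maps: the orbits of all integers near the members of almost all orbits of Euler's function, for all `d` at once

Let `φ_k` be the `k`-th iterate of Euler's function, `φ_0(m) = m`. Let `f` be a positive multiplicative
function of at most polynomial growth such that `f p ≤ M p` for the large primes `p`, with different values
at different large primes; for example the identity, Euler's function or the sum of the divisors. There is
`γ > 1 - H`, `H = 0.94995...`, such that if `G` has steps bounded below by a positive constant and growth at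
most `v ^ e`, for example `G v = v`, `0 < η ≤ 1`, `θ, κ ≥ 0` and `e (1 + (1 + γ) θ - γ η) + κ < 1`, then there
is `K(m)` tending to infinity such that for almost all `m`, for all `k ≤ K(m)`, with `v = f(φ_k(m))`, for EVERY
integer `x` with `||x| - G v| ≤ v ^ κ` and ALL odd `d` prime to `3` with `|d| ≤ |x| ^ θ`, the `3x+d` orbit of
`x` comes down to a value `≤ |x| ^ η`. The values of `f` are in general taken with very large multiplicities,
and so this does not follow from the number of the exceptional pairs `(d, x)`.

It combines the starting library `N760/IT` with the number of these pairs: the starting library `TH235/UB`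
bounds the number of the exceptional `x` for one `d`, uniformly in `d` at the scale `|d|`, and this is summed
over `d`.
-/

set_option autoImplicit false

namespace Pool.Agent.Results.MP_d0d59f_nt.TotientOrbits

open Filter
open Pool.Agent.T63.CL
open Pool.Agent.N733.TG (LM Expanding lm_totient lm_sigma expanding_pow)
open Pool.Agent.N760.IT (orb lm_id orbit_windows')
open Pool.Agent.N826.IT.Orb (AlmostAll)

/-- **The `3x+d` maps near the orbits of Euler's function, uniformly in `d`.** There is `γ`,
`1 - H < γ < 1`, `H = 0.94995...`, with the following property. Let `f` be multiplicative and positive, of at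
most polynomial growth, with `f p ≤ M p` at the large primes, and injective there; let `G` have steps
`≥ a > 0` and growth at most `v ^ e`, `0 < η ≤ 1`, `θ, κ ≥ 0` and `e (1 + (1 + γ) θ - γ η) + κ < 1`. Then there
is `K(m)` tending to infinity such that for almost all `m`, for all `k ≤ K(m)`, with `v = f(φ_k(m))`
(`orb f k m`), for EVERY integer `x` with `||x| - G v| ≤ v ^ κ` and ALL odd `d` prime to `3` with
`|d| ≤ |x| ^ θ`, the `3x+d` orbit of `x` contains a term of absolute value `≤ |x| ^ η` (`AllDown`). The
identity, Euler's function and the sum of the divisors are examples of such functions `f`, and `α v ^ e` with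
`α > 0`, `e ≥ 1` is an example of `G`. -/
theorem result :
    ∃ γ : ℝ, 1 - H < γ ∧ γ < 1 ∧
      ∀ f : ℕ → ℕ, LM f → ∀ (G : ℕ → ℝ) (e : ℝ), Expanding G e → ∀ η θ κ : ℝ,
      0 < η → η ≤ 1 → 0 ≤ θ → 0 ≤ κ → e * (1 + (1 + γ) * θ - γ * η) + κ < 1 →
      ∃ K : ℕ → ℕ, Tendsto K atTop atTop ∧
        AlmostAll (fun m => ∀ k ≤ K m, AllDown θ η (G (orb f k m)) ((orb f k m : ℝ) ^ κ)) := by
  obtain ⟨γ, hγ, hγ1, hp⟩ := pairs
  have hH := H_lt
  refine ⟨γ, hγ, hγ1, fun f hf G e hG η θ κ hη hη1 hθ hκ h1 => ?_⟩
  have hs : 0 ≤ 1 + (1 + γ) * θ - γ * η := by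
    have h2 : γ * η ≤ 1 := by nlinarith
    have h3 : 0 ≤ (1 + γ) * θ := mul_nonneg (by linarith) hθ
    linarith
  obtain ⟨K, hK, h2⟩ := orbit_windows' {p : ℤ × ℤ | Adm θ p ∧ ¬ Good η p}
    (fun p : ℤ × ℤ => |(p.2 : ℝ)|) hf hG (s := 1 + (1 + γ) * θ - γ * η) (κ := κ) hs hκ h1
    (hp η θ hη hη1 hθ)
  refine ⟨K, hK, ?_⟩
  refine Pool.Agent.N826.IT.Orb.almostAll_mono h2 fun m h k hk => allDown_of fun p h3 h4 => ?_
  by_contra h5
  exact h k hk p ⟨h3, h5⟩ h4

end Pool.Agent.Results.MP_d0d59f_nt.TotientOrbits
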